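import Pool.Agent.P8H39.FDF.Stm

/-!
# Project FDF: the exact lower bound in terms of a partition
-/

set_option autoImplicit false
set_option linter.unusedSectionVars false

namespace Pool.Agent.P8H7.FDF

open Finset P8H39.FDF

section av

variable {V : Type} [Fintype V]

lemma av_add (f g : V → ℝ) : av (fun x => f x + g x) = av f + av g := by
  unfold av
  rw [Finset.sum_add_distrib, add_div]

lemma av_sub (f g : V → ℝ) : av (fun x => f x - g x) = av f - av g := by
  unfold av
  rw [Finset.sum_sub_distrib, sub_div]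

lemma av_mul (c : ℝ) (f : V → ℝ) : av (fun x => c * f x) = c * av f := by
  unfold av
  rw [← Finset.mul_sum, mul_div_assoc]

lemma av_mulr (f : V → ℝ) (c : ℝ) : av (fun x => f x * c) = av f * c := by
  unfold av
  rw [← Finset.sum_mul, mul_div_right_comm]

lemma av_mono {f g : V → ℝ} (h : ∀ x, f x ≤ g x) : av f ≤ av g := by
  unfold av
  apply div_le_div_of_nonneg_right (Finset.sum_le_sum fun x _ => h x) (Nat.cast_nonneg _)

lemma av_comm (f : V → V → ℝ) :
    av (fun x => av fun y => f x y) = av (fun y => av fun x => f x y) := by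
  unfold av
  simp only [← Finset.sum_div]
  rw [Finset.sum_comm]

lemma av_const [Nonempty V] (c : ℝ) : av (fun _ : V => c) = c := by
  unfold av
  have : (Fintype.card V : ℝ) ≠ 0 := by exact_mod_cast Fintype.card_ne_zero
  rw [Finset.sum_const, nsmul_eq_mul, Finset.card_univ]
  field_simp

end av

/-- integer indicator -/
def Zb (b : Bool) : ℤ := if b then 1 else 0

lemma B_eq (b : Bool) : B b = ((Zb b : ℤ) : ℝ) := by
  cases b <;> simp [B, Zb]

/-- the pointwise inequality for booleans: `a = r x y`, `a' = r y x`, `b = r x z`, `b' = r z x`,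
`c = r y z`, `c' = r z y`, `e = (p x = p y)`, `f = (p x = p z)`, `g = (p y = p z)` -/
def chk (a a' b b' c c' e f g : Bool) : Bool :=
  (a && a') || (b && b') || (c && c') || (e && f && !g) || (e && g && !f) || (f && g && !e) ||
  decide ((Zb a * Zb b - Zb (e && (a || a')) * Zb (f && (b || b')) +
        Zb (e && !(a || a')) * Zb (!f && !(b || b')) + Zb (!e && !(a || a')) * Zb (f && !(b || b')) -
        Zb (!e && !(a || a')) * Zb (!f && !(b || b'))) +
      (Zb a' * Zb c - Zb (e && (a || a')) * Zb (g && (c || c')) +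
        Zb (e && !(a || a')) * Zb (!g && !(c || c')) + Zb (!e && !(a || a')) * Zb (g && !(c || c')) -
        Zb (!e && !(a || a')) * Zb (!g && !(c || c'))) +
      (Zb b' * Zb c' - Zb (f && (b || b')) * Zb (g && (c || c')) +
        Zb (f && !(b || b')) * Zb (!g && !(c || c')) + Zb (!f && !(b || b')) * Zb (g && !(c || c')) -
        Zb (!f && !(b || b')) * Zb (!g && !(c || c'))) +
      Zb e * Zb f ≤
    Zb ((a && b) || (a' && c) || (b' && c') ||
      !(((a || a') && (b || b')) || ((a || a') && (c || c')) || ((b || b') && (c || c')))))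

lemma chk_true : ∀ a a' b b' c c' e f g : Bool, chk a a' b b' c c' e f g = true := by
  decide +kernel

lemma key (a a' b b' c c' e f g : Bool) (h1 : (a && a') = false) (h2 : (b && b') = false)
    (h3 : (c && c') = false) (h4 : (e && f && !g) = false) (h5 : (e && g && !f) = false)
    (h6 : (f && g && !e) = false) :
    (Zb a * Zb b - Zb (e && (a || a')) * Zb (f && (b || b')) +
        Zb (e && !(a || a')) * Zb (!f && !(b || b')) + Zb (!e && !(a || a')) * Zb (f && !(b || b')) -
        Zb (!e && !(a || a')) * Zb (!f && !(b || b'))) +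
      (Zb a' * Zb c - Zb (e && (a || a')) * Zb (g && (c || c')) +
        Zb (e && !(a || a')) * Zb (!g && !(c || c')) + Zb (!e && !(a || a')) * Zb (g && !(c || c')) -
        Zb (!e && !(a || a')) * Zb (!g && !(c || c'))) +
      (Zb b' * Zb c' - Zb (f && (b || b')) * Zb (g && (c || c')) +
        Zb (f && !(b || b')) * Zb (!g && !(c || c')) + Zb (!f && !(b || b')) * Zb (g && !(c || c')) -
        Zb (!f && !(b || b')) * Zb (!g && !(c || c'))) +
      Zb e * Zb f ≤
    Zb ((a && b) || (a' && c) || (b' && c') ||
      !(((a || a') && (b || b')) || ((a || a') && (c || c')) || ((b || b') && (c || c')))) := by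
  have h := chk_true a a' b b' c c' e f g
  unfold chk at h
  rw [h1, h2, h3, h4, h5, h6] at h
  simp only [Bool.false_or] at h
  exact of_decide_eq_true h

section main

variable {V : Type} (r : V → V → Bool) (p : V → Fin 3)

/-- same part -/
def eq2 (x y : V) : Bool := decide (p y = p x)

lemma eq2_comm (x y : V) : eq2 p x y = eq2 p y x := by
  unfold eq2
  simp only [eq_comm]

lemma adj_comm (x y : V) : adj r x y = adj r y x := by
  unfold adj
  exact Bool.or_comm _ _

/-- the terms with centre `x` -/
noncomputable def hc (x y z : V) : ℝ :=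
  B (r x y) * B (r x z) - B (eq2 p x y && adj r x y) * B (eq2 p x z && adj r x z) +
    B (eq2 p x y && !adj r x y) * B (!eq2 p x z && !adj r x z) +
    B (!eq2 p x y && !adj r x y) * B (eq2 p x z && !adj r x z) -
    B (!eq2 p x y && !adj r x y) * B (!eq2 p x z && !adj r x z)

lemma point (hO : Ori r) (x y z : V) :
    hc r p x y z + hc r p y x z + hc r p z x y + B (eq2 p x y) * B (eq2 p x z) ≤
      B (miss r x y z) := by
  have h1 : ∀ u v : V, (r u v && r v u) = false := by
    intro u v
    cases h : r u v
    · rfl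
    · rw [hO u v h]
      rfl
  have h2 : ∀ u v w : V, (eq2 p u v && eq2 p u w && !eq2 p v w) = false := by
    intro u v w
    unfold eq2
    by_cases ha : p v = p u
    · by_cases hb : p w = p u
      · simp [ha, hb]
      · simp [hb]
    · simp [ha]
  have hk := key (r x y) (r y x) (r x z) (r z x) (r y z) (r z y) (eq2 p x y) (eq2 p x z) (eq2 p y z)
    (h1 x y) (h1 x z) (h1 y z) (h2 x y z)
    (by rw [eq2_comm p x y]; exact h2 y x z)
    (by rw [eq2_comm p x z, eq2_comm p y z, eq2_comm p x y]; rw [eq2_comm p y x]; exact h2 z x y)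
  unfold hc miss le1
  rw [adj_comm r y x, adj_comm r z x, adj_comm r z y, eq2_comm p y x, eq2_comm p z x,
    eq2_comm p z y]
  unfold adj
  simp only [B_eq]
  exact_mod_cast hk

variable [Fintype V] [Nonempty V]

lemma av_eq2 (x : V) : av (fun y => B (eq2 p x y)) = al p (p x) := rfl

lemma av_in (x : V) : av (fun y => B (eq2 p x y && adj r x y)) = ip r p x := rfl

lemma av_mi (x : V) : av (fun y => B (!eq2 p x y && !adj r x y)) = mp r p x := rfl

lemma av_sb (x : V) : av (fun y => B (eq2 p x y && !adj r x y)) = al p (p x) - ip r p x := by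
  rw [← av_eq2, ← av_in, ← av_sub]
  congr 1
  funext y
  cases eq2 p x y <;> cases adj r x y <;> simp [B]

lemma av_sep (f g : V → ℝ) : av (fun y => av fun z => f y * g z) = av f * av g := by
  simp only [av_mul, av_mulr]

lemma av_hc (x : V) : av (fun y => av fun z => hc r p x y z) =
    dp r x ^ 2 - ip r p x ^ 2 + 2 * ((al p (p x) - ip r p x) * mp r p x) - mp r p x ^ 2 := by
  unfold hc
  simp only [av_sub, av_add, av_sep, av_in, av_mi, av_sb]
  unfold dp
  ring

lemma av_part (φ : Fin 3 → ℝ) : av (fun x => φ (p x)) =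
    al p 0 * φ 0 + al p 1 * φ 1 + al p 2 * φ 2 := by
  unfold al
  rw [← av_mulr, ← av_mulr, ← av_mulr, ← av_add, ← av_add]
  congr 1
  funext x
  generalize p x = j
  fin_cases j <;> simp [B]

lemma av_deg (hO : Ori r) : 2 * av (fun x => dp r x) =
    av (fun x => ip r p x + 1 - al p (p x) - mp r p x) := by
  have h1 : av (fun x => dp r x) = av (fun x => dm r x) := by
    unfold dp dm
    exact av_comm _
  have h2 : ∀ x, dp r x + dm r x = ip r p x + 1 - al p (p x) - mp r p x := by
    intro x
    rw [← av_eq2, ← av_in, ← av_mi, ← av_const (V := V) 1, ← av_add, ← av_sub, ← av_sub]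
    unfold dp dm
    rw [← av_add]
    congr 1
    funext y
    have := hO x y
    unfold adj
    cases h3 : r x y <;> cases h4 : r y x <;> cases eq2 p x y <;> simp_all [B]
  rw [two_mul]
  nth_rw 2 [h1]
  rw [← av_add]
  congr 1
  funext x
  exact h2 x

/-- GLOB -/
theorem t_GLOB : S_GLOB := by
  intro V _ _ _ r p hO
  have h1 : av (fun x => 3 * (dp r x ^ 2 - ip r p x ^ 2 + 2 * ((al p (p x) - ip r p x) * mp r p x) -
      mp r p x ^ 2) + al p (p x) ^ 2) ≤ FF r := by
    have h2 : av (fun x => av fun y => av fun z =>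
        hc r p x y z + hc r p y x z + hc r p z x y + B (eq2 p x y) * B (eq2 p x z)) ≤ FF r :=
      av_mono fun x => av_mono fun y => av_mono fun z => point r p hO x y z
    refine le_of_eq_of_le ?_ h2
    have e1 : av (fun x => av fun y => av fun z => hc r p y x z) =
        av (fun x => av fun y => av fun z => hc r p x y z) :=
      av_comm fun x y => av fun z => hc r p y x z
    have e2 : av (fun x => av fun y => av fun z => hc r p z x y) =
        av (fun x => av fun y => av fun z => hc r p x y z) := by
      have e3 : ∀ x, av (fun y => av fun z => hc r p z x y) = av (fun z => av fun y => hc r p z x y) :=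
        fun x => av_comm fun y z => hc r p z x y
      simp only [e3]
      exact av_comm fun x z => av fun y => hc r p z x y
    simp only [av_add]
    rw [e1, e2]
    simp only [av_hc, av_eq2, av_mul, av_mulr]
    ring_nf
  have h3 := av_deg r p hO
  have h4 : av (fun x => 3 * (dp r x ^ 2 - ip r p x ^ 2 + 2 * ((al p (p x) - ip r p x) * mp r p x) -
      mp r p x ^ 2) + al p (p x) ^ 2) = 3 * V3 r + 2 * av (fun x => dp r x) - 1 / 3 +
      av (fun x => - 3 * ip r p x ^ 2 + 6 * ((al p (p x) - ip r p x) * mp r p x) -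
      3 * mp r p x ^ 2 + al p (p x) ^ 2) := by
    unfold V3
    rw [← av_mul, ← av_mul, ← av_const (V := V) (1 / 3), ← av_add, ← av_sub, ← av_add]
    congr 1
    funext x
    rw [av_const]
    ring
  have h5 := av_part p (fun j => 1 - al p j + al p j ^ 2)
  have h6 := av_part p (fun _ => (1 : ℝ))
  rw [av_const] at h6
  have h7 : av (fun x => ip r p x + 1 - al p (p x) - mp r p x) +
      av (fun x => - 3 * ip r p x ^ 2 + 6 * ((al p (p x) - ip r p x) * mp r p x) -
      3 * mp r p x ^ 2 + al p (p x) ^ 2) =
      av (fun x => ip r p x * (1 - 3 * ip r p x) +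
      mp r p x * (6 * al p (p x) - 1 - 6 * ip r p x - 3 * mp r p x)) +
      av (fun x => 1 - al p (p x) + al p (p x) ^ 2) := by
    rw [← av_add, ← av_add]
    congr 1
    funext x
    ring
  have h8 : al p 0 * (1 - al p 0 + al p 0 ^ 2) + al p 1 * (1 - al p 1 + al p 1 ^ 2) +
      al p 2 * (1 - al p 2 + al p 2 ^ 2) =
      7 / 9 + 3 * ((al p 0 - 1/3) * (al p 1 - 1/3) * (al p 2 - 1/3)) := by
    have h9 : al p 2 = 1 - al p 0 - al p 1 := by linarith
    rw [h9]
    ring
  have h10 : av (fun x => 1 - al p (p x) + al p (p x) ^ 2) =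
      7 / 9 + 3 * ((al p 0 - 1/3) * (al p 1 - 1/3) * (al p 2 - 1/3)) := h5.trans h8
  linarith

end main

end Pool.Agent.P8H7.FDF
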